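import Pool.Agent.Lib.Helper71.TL.Main

/-!
There is a finitely presented tree-like inverse monoid (all of whose Schützenberger graphs are
even finite) with undecidable rational subset, submonoid, inverse submonoid and closed inverse
submonoid membership problems.

Idea. A Turing machine with undecidable halting problem is simulated by sweeps of a signal
through rows of columns, `h_c V_v = V_{v'} h_{c'}`, each sweep leaving a garbage record that makes
the local rules injective, `λ V_v = U λ h_b h_v`, and `h_c = 0` for halting columns `c`.  All
relations except those defining the zero are positive and homogeneous for a positive weight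
function, so all Schützenberger graphs are finite.  For `x = λ h(initial row)`, `r = V_b` one
has `x r^m = U^m λ h(row m)`, so `x r^m = 0` for some `m` iff the machine halts; if it does not
halt, a partial action with `x` and `r` fixing a point shows that `0` is not in the closed
inverse submonoid generated by `x` and `r`.
-/

namespace Pool.Agent.Results.MP_56939f_al.TreeLikeUndecidable

open H71TL

theorem result : ∃ (n : ℕ) (R : List (Word (Fin n) × Word (Fin n))),
    TreeLike (InvMon.gen R) ∧
    (∀ s : InvMon R, (schutzVert (InvMon.gen R) s).Finite) ∧
    ¬ ComputablePred (RationalSubsetMembership (InvMon.gen R)) ∧
    ¬ ComputablePred (SubmonoidMembership (InvMon.gen R)) ∧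
    ¬ ComputablePred (InverseSubmonoidMembership (InvMon.gen R)) ∧
    ¬ ComputablePred (ClosedInverseSubmonoidMembership (InvMon.gen R)) :=
  H71TL.main

end Pool.Agent.Results.MP_56939f_al.TreeLikeUndecidable
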